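import Pool.Agent.helper7.BQ.Spec

set_option autoImplicit false

namespace Pool.Agent.BQ

open Finset ArithmeticFunction

theorem AAL_cR {l : ℕ} (hl : l.Prime) (n : ℤ) :
    cR l n = -1 + if (l : ℤ) ∣ n then (l : ℝ) else 0 := by
  unfold cR
  rw [hl.divisors, Finset.sum_filter, Finset.sum_pair hl.one_lt.ne]
  have h1 : ((1 : ℕ) : ℤ) ∣ n := one_dvd n
  rw [if_pos h1, Nat.div_one, ArithmeticFunction.moebius_apply_prime hl, Nat.div_self hl.pos,
    ArithmeticFunction.moebius_apply_one]
  split_ifs <;> norm_num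

theorem AAL_filter {l : ℕ} (hl : l.Prime) :
    (range l).filter (fun c => Nat.Coprime c l) = Ico 1 l := by
  ext c
  rw [mem_filter, mem_range, mem_Ico]
  constructor
  · rintro ⟨h1, h2⟩
    refine ⟨?_, h1⟩
    by_contra h3
    have h4 : c = 0 := by omega
    rw [h4, Nat.coprime_zero_left] at h2
    exact hl.one_lt.ne' h2
  · rintro ⟨h1, h2⟩
    exact ⟨h2, (Nat.coprime_of_lt_prime (by omega) h2 hl).symm⟩

theorem AAL_eq {l : ℕ} (hl : l.Prime) (b : ℤ) :
    AA l b = ((l : ℝ) - 1 - l * nu l b) / ((l : ℝ) - 1) ^ 2 := by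
  unfold AA
  rw [ArithmeticFunction.moebius_apply_prime hl, Nat.totient_prime hl, AAL_filter hl]
  rw [Finset.sum_congr rfl fun (c : ℕ) _ => AAL_cR hl (8 * (c : ℤ) ^ 2 - b), Finset.sum_add_distrib,
    ← Finset.sum_filter, Finset.sum_const, Finset.sum_const, Nat.card_Ico]
  have h1 : ((l - 1 : ℕ) : ℝ) = (l : ℝ) - 1 := by
    rw [Nat.cast_sub hl.one_le, Nat.cast_one]
  rw [nsmul_eq_mul, nsmul_eq_mul, h1]
  unfold nu
  push_cast
  ring

theorem AAL_pos {l : ℕ} (hl : l.Prime) : (1 : ℝ) ≤ (l : ℝ) - 1 := by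
  have : (2 : ℝ) ≤ l := by exact_mod_cast hl.two_le
  linarith

theorem AAL_one {l : ℕ} (hl : l.Prime) (b : ℤ) :
    1 + AA l b = (l : ℝ) / ((l : ℝ) - 1) * (1 - (nu l b : ℝ) / ((l : ℝ) - 1)) := by
  rw [AAL_eq hl]
  have := AAL_pos hl
  have h : (l : ℝ) - 1 ≠ 0 := by positivity
  field_simp
  ring

theorem AAL_nu_two (b : ℤ) : nu 2 b ≤ 1 := by
  unfold nu
  refine (Finset.card_filter_le _ _).trans ?_
  rw [Nat.card_Ico]

theorem AAL_nu {l : ℕ} (hl : l.Prime) (h2 : l ≠ 2) (b : ℤ) : nu l b ≤ 2 := by
  unfold nu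
  rcases Finset.eq_empty_or_nonempty
    ((Ico 1 l).filter fun c : ℕ => (l : ℤ) ∣ 8 * (c : ℤ) ^ 2 - b) with h | ⟨c₁, h1⟩
  · rw [h, card_empty]
    omega
  · refine (Finset.card_le_card (t := {c₁, l - c₁}) ?_).trans Finset.card_le_two
    intro c hc
    rw [mem_filter, mem_Ico] at h1 hc
    rw [mem_insert, mem_singleton]
    have hp : Prime (l : ℤ) := Nat.prime_iff_prime_int.1 hl
    have h3 : (l : ℤ) ∣ 8 * (((c : ℤ) - c₁) * ((c : ℤ) + c₁)) := by
      have := dvd_sub hc.2 h1.2
      have e : 8 * (c : ℤ) ^ 2 - b - (8 * (c₁ : ℤ) ^ 2 - b) =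
          8 * (((c : ℤ) - c₁) * ((c : ℤ) + c₁)) := by ring
      rwa [e] at this
    have h8 : ¬ (l : ℤ) ∣ 8 := by
      intro h
      have h' : l ∣ 2 ^ 3 := by
        have : (l : ℤ) ∣ ((2 ^ 3 : ℕ) : ℤ) := by norm_num; exact h
        exact_mod_cast this
      exact h2 ((Nat.prime_dvd_prime_iff_eq hl Nat.prime_two).1 (hl.dvd_of_dvd_pow h'))
    rcases hp.dvd_or_dvd h3 with h | h
    · exact absurd h h8
    · rcases hp.dvd_or_dvd h with h | h
      · left
        have h5 : (c : ℤ) - c₁ = 0 := by
          refine Int.eq_zero_of_abs_lt_dvd h ?_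
          rw [abs_lt]
          constructor <;> omega
        omega
      · right
        obtain ⟨k, hk⟩ := h
        have hk1 : k = 1 := by
          have h6 : (0 : ℤ) < l := by exact_mod_cast hl.pos
          have h7 : 0 < (l : ℤ) * k := by rw [← hk]; omega
          have h8 : (l : ℤ) * k < 2 * l := by rw [← hk]; omega
          have h9 : 0 < k := by
            by_contra hneg
            nlinarith
          have h10 : k < 2 := by
            by_contra hneg
            nlinarith
          omega
        rw [hk1, mul_one] at hk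
        omega

theorem AAL_nu_congr {l : ℕ} (b b' : ℤ) (h : (l : ℤ) ∣ b - b') : nu l b = nu l b' := by
  unfold nu
  congr 1
  refine Finset.filter_congr fun c _ => ?_
  have e : 8 * (c : ℤ) ^ 2 - b' = (8 * (c : ℤ) ^ 2 - b) + (b - b') := by ring
  rw [e]
  exact (dvd_add_left h).symm

theorem AAL : AAL_stmt := by
  intro l hl
  have hp := AAL_pos hl
  have hpp : 0 < (l : ℝ) - 1 := by linarith
  refine ⟨fun b => AAL_one hl b, fun b => ?_, fun b h5 => ?_, fun b b' h => ?_, ?_, fun h b => ?_,
    fun h b => ?_⟩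
  · rw [AAL_eq hl, abs_div, abs_of_pos (by positivity : 0 < ((l : ℝ) - 1) ^ 2),
      div_le_div_iff₀ (by positivity) (by exact_mod_cast hl.pos)]
    have hn0 : (0 : ℝ) ≤ nu l b := Nat.cast_nonneg _
    by_cases h2 : l = 2
    · subst h2
      have h1 : (nu 2 b : ℝ) ≤ 1 := by exact_mod_cast AAL_nu_two b
      have : |((2 : ℕ) : ℝ) - 1 - ((2 : ℕ) : ℝ) * (nu 2 b : ℝ)| ≤ 1 := by
        rw [abs_le]
        push_cast
        constructor <;> linarith
      push_cast at this ⊢
      nlinarith
    · have h1 : (nu l b : ℝ) ≤ 2 := by exact_mod_cast AAL_nu hl h2 b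
      have h3 : (3 : ℝ) ≤ l := by
        have := hl.two_le
        have : 3 ≤ l := by omega
        exact_mod_cast this
      have h4 : |(l : ℝ) - 1 - l * nu l b| ≤ l + 1 := by
        rw [abs_le]
        constructor <;> nlinarith
      have h5 : |(l : ℝ) - 1 - l * nu l b| * l ≤ (l + 1) * l :=
        mul_le_mul_of_nonneg_right h4 (by linarith)
      nlinarith
  · have h2 : l ≠ 2 := by omega
    have h1 : (nu l b : ℝ) ≤ 2 := by exact_mod_cast AAL_nu hl h2 b
    have h3 : (5 : ℝ) ≤ l := by exact_mod_cast h5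
    have h4 : 5 / 8 - 1 ≤ AA l b := by
      rw [AAL_eq hl, le_div_iff₀ (by positivity)]
      nlinarith
    linarith
  · have h1 := AAL_nu_congr b b' h
    exact ⟨by rw [AAL_eq hl, AAL_eq hl, h1], h1⟩
  · rw [Finset.sum_congr rfl fun (b : ℕ) _ => AAL_eq hl (b : ℤ), ← Finset.sum_div,
      Finset.sum_sub_distrib, ← Finset.mul_sum, Finset.sum_const, card_range]
    have h1 : ∑ b ∈ range l, (nu l (b : ℤ) : ℝ) = (l : ℝ) - 1 := by
      have h2 : ∑ b ∈ range l, nu l (b : ℤ) = l - 1 := by
        unfold nu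
        simp_rw [Finset.card_filter]
        rw [Finset.sum_comm]
        have h3 : ∀ c ∈ Ico 1 l, ∑ b ∈ range l, (if (l : ℤ) ∣ 8 * (c : ℤ) ^ 2 - (b : ℤ) then 1 else 0) = 1 := by
          intro c _
          rw [Finset.sum_eq_single ((8 * c ^ 2) % l)]
          · rw [if_pos]
            push_cast
            exact Int.dvd_self_sub_emod
          · intro b hb hne
            rw [if_neg]
            intro h
            apply hne
            rw [mem_range] at hb
            have h4 : (b : ℤ) ≡ ((8 * c ^ 2 : ℕ) : ℤ) [ZMOD (l : ℤ)] := by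
              rw [Int.modEq_iff_dvd]
              push_cast
              exact h
            have h5 : b % l = (8 * c ^ 2) % l := Int.natCast_modEq_iff.1 h4
            rw [Nat.mod_eq_of_lt hb] at h5
            exact h5
          · intro h
            exact absurd (mem_range.2 (Nat.mod_lt _ hl.pos)) h
        rw [Finset.sum_congr rfl h3, Finset.sum_const, Nat.card_Ico, smul_eq_mul, mul_one]
      have h3 : ((∑ b ∈ range l, nu l (b : ℤ) : ℕ) : ℝ) = ((l - 1 : ℕ) : ℝ) := by rw [h2]
      rw [Nat.cast_sub hl.one_le, Nat.cast_one] at h3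
      rw [← h3]
      push_cast
      rfl
    rw [h1, nsmul_eq_mul]
    ring
  · subst h
    have h0 : nu 2 b = if (2 : ℤ) ∣ 8 - b then 1 else 0 := by
      unfold nu
      have : Ico 1 2 = {1} := by decide
      rw [this, Finset.filter_singleton]
      norm_num
      split_ifs <;> rfl
    rw [AAL_one hl, h0]
    constructor
    · intro hb
      rw [if_neg (by omega)]
      norm_num
    · intro hb
      rw [if_pos (by omega)]
      norm_num
  · subst h
    have h0 : nu 3 b = if b % 3 = 2 then 2 else 0 := by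
      unfold nu
      have : Ico 1 3 = {1, 2} := by decide
      rw [this]
      by_cases hb : b % 3 = 2
      · rw [if_pos hb, Finset.filter_true_of_mem]
        · rfl
        · intro c hc
          rw [mem_insert, mem_singleton] at hc
          rcases hc with rfl | rfl
          · push_cast; omega
          · push_cast; omega
      · rw [if_neg hb, Finset.filter_false_of_mem]
        · rfl
        · intro c hc
          rw [mem_insert, mem_singleton] at hc
          rcases hc with rfl | rfl
          · push_cast; omega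
          · push_cast; omega
    rw [AAL_one hl, h0]
    constructor
    · intro hb
      rw [if_pos hb]
      norm_num
    · intro hb
      rw [if_neg hb]
      norm_num

end Pool.Agent.BQ
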